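import Pool.Agent.helper16.LW.Spec

/-!
# Project lw: module SPL (the spectral lemma)
-/

set_option autoImplicit false

open Complex MeasureTheory
open scoped ComplexOrder

namespace Pool.Agent.LW

open Pool.Agent.ZD Pool.Agent.helper84.DM Pool.Agent.helper78.ED Pool.Agent.DH
open Matrix

theorem SPL_tr {ι : Type} [Fintype ι] [DecidableEq ι] (U M : Matrix ι ι ℂ) (h1 : star U * U = 1) :
    (U * M * star U).trace = M.trace := by
  rw [Matrix.trace_mul_comm, ← Matrix.mul_assoc, h1, Matrix.one_mul]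

/-- the quadratic form. -/
theorem SPL_q {ι : Type} [Fintype ι] (M : Matrix ι ι ℂ) (x : ι → ℂ) :
    ∑ i, ∑ j, (starRingEnd ℂ) (x i) * M i j * x j = star x ⬝ᵥ (M *ᵥ x) := by
  simp only [dotProduct, Matrix.mulVec, Pi.star_apply, RCLike.star_def, Finset.mul_sum, mul_assoc]

theorem SPL_qU {ι : Type} [Fintype ι] (U N : Matrix ι ι ℂ) (x : ι → ℂ) :
    star x ⬝ᵥ ((U * N * star U) *ᵥ x) = star (star U *ᵥ x) ⬝ᵥ (N *ᵥ (star U *ᵥ x)) := by
  rw [Matrix.star_mulVec, Matrix.star_eq_conjTranspose, Matrix.conjTranspose_conjTranspose,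
    ← Matrix.mulVec_mulVec, ← Matrix.mulVec_mulVec, Matrix.dotProduct_mulVec]

theorem SPL_norm {ι : Type} [Fintype ι] (x : ι → ℂ) :
    ((∑ i, ‖x i‖ ^ 2 : ℝ) : ℂ) = star x ⬝ᵥ x := by
  simp only [dotProduct, Pi.star_apply, RCLike.star_def]
  push_cast
  exact Finset.sum_congr rfl fun i _ => (Complex.conj_mul' (x i)).symm

theorem SPL_normU {ι : Type} [Fintype ι] [DecidableEq ι] (U : Matrix ι ι ℂ) (h2 : U * star U = 1)
    (x : ι → ℂ) : ∑ i, ‖(star U *ᵥ x) i‖ ^ 2 = ∑ i, ‖x i‖ ^ 2 := by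
  have h := SPL_qU U 1 x
  rw [Matrix.mul_one, h2, Matrix.one_mulVec, Matrix.one_mulVec, ← SPL_norm, ← SPL_norm] at h
  exact_mod_cast h.symm

theorem SPL_real (P C₀ a lam w : ℝ) (hP : 0 ≤ P) (hC : 0 < C₀) (ha : 0 ≤ a) (hal : a ≤ lam / 4)
    (hwa : 0 ≤ w + a) (hPC : P ≤ C₀ * (w + a)) (hl : 0 ≤ lam) :
    4 * lam * (w * P) - 2 * lam ^ 2 * P ≤ 12 * C₀ * (w ^ 3 + w ^ 2 * a) := by
  rcases le_or_gt (lam / 2) w with hw | hw
  · have hw0 : 0 ≤ w := by linarith
    have h1 : P ≤ C₀ * (3 / 2 * w) := hPC.trans (mul_le_mul_of_nonneg_left (by linarith) hC.le)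
    have h2 : lam * (w * P) ≤ lam * (w * (C₀ * (3 / 2 * w))) :=
      mul_le_mul_of_nonneg_left (mul_le_mul_of_nonneg_left h1 hw0) hl
    have h3 : lam * (C₀ * w ^ 2) ≤ 2 * w * (C₀ * w ^ 2) :=
      mul_le_mul_of_nonneg_right (by linarith) (by positivity)
    have h4 : 0 ≤ lam ^ 2 * P := by positivity
    have h5 : 0 ≤ C₀ * (w ^ 2 * a) := by positivity
    nlinarith
  · have h1 : 0 ≤ C₀ * (w ^ 2 * (w + a)) := by positivity
    have h2 : lam * P * (2 * w - lam) ≤ 0 :=
      mul_nonpos_of_nonneg_of_nonpos (by positivity) (by linarith)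
    nlinarith

/-- **SPL**. The spectral lemma. -/
theorem SPL : SPL_stmt := by
  intro ι _ _ H D L v m lam C₀ hH hD hlam hC₀ hDq hvm hvH hB
  have hO : (H - D).IsHermitian := hH.isHermitian.sub hD.isHermitian
  obtain ⟨U, w, hU1, hU2, hOU⟩ : ∃ (U : Matrix ι ι ℂ) (w : ι → ℝ), star U * U = 1 ∧ U * star U = 1 ∧
      H - D = U * Matrix.diagonal (fun i => ((w i : ℝ) : ℂ)) * star U := by
    refine ⟨(hO.eigenvectorUnitary : Matrix ι ι ℂ), hO.eigenvalues, ?_, ?_, ?_⟩
    · exact Unitary.coe_star_mul_self _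
    · exact Unitary.coe_mul_star_self _
    · conv_lhs => rw [hO.spectral_theorem, Unitary.conjStarAlgAut_apply]
      rfl
  have hback : ∀ M : Matrix ι ι ℂ, M = U * (star U * M * U) * star U := by
    intro M
    calc M = (U * star U) * M * (U * star U) := by rw [hU2, Matrix.one_mul, Matrix.mul_one]
      _ = U * (star U * M * U) * star U := by simp only [Matrix.mul_assoc]
  have hmul : ∀ M N : Matrix ι ι ℂ, (U * M * star U) * (U * N * star U) = U * (M * N) * star U := by
    intro M N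
    calc (U * M * star U) * (U * N * star U) = U * M * (star U * U) * N * star U := by
          simp only [Matrix.mul_assoc]
      _ = U * (M * N) * star U := by rw [hU1, Matrix.mul_one]; simp only [Matrix.mul_assoc]
  set D' : Matrix ι ι ℂ := star U * D * U with hD'def
  set H' : Matrix ι ι ℂ := star U * H * U with hH'def
  have hD' : D'.PosSemidef := hD.conjTranspose_mul_mul_same U
  have hH' : H'.PosSemidef := hH.conjTranspose_mul_mul_same U
  have hHD : H' = Matrix.diagonal (fun i => ((w i : ℝ) : ℂ)) + D' := by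
    have h1 : H' = star U * (H - D) * U + D' := by
      rw [hH'def, hD'def, Matrix.mul_sub, Matrix.sub_mul, sub_add_cancel]
    have h2 : star U * (H - D) * U = Matrix.diagonal (fun i => ((w i : ℝ) : ℂ)) := by
      rw [hOU]
      calc star U * (U * Matrix.diagonal (fun i => ((w i : ℝ) : ℂ)) * star U) * U
          = (star U * U) * Matrix.diagonal (fun i => ((w i : ℝ) : ℂ)) * (star U * U) := by
            simp only [Matrix.mul_assoc]
        _ = Matrix.diagonal (fun i => ((w i : ℝ) : ℂ)) := by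
            rw [hU1, Matrix.one_mul, Matrix.mul_one]
    rw [h1, h2]
  have hdiag : ∀ (M : Matrix ι ι ℂ), M.PosSemidef → ∀ i, 0 ≤ (M i i).re ∧
      M i i = (((M i i).re : ℝ) : ℂ) := by
    intro M hM i
    have h0 : 0 ≤ M i i := hM.diag_nonneg
    rw [Complex.nonneg_iff] at h0
    refine ⟨h0.1, ?_⟩
    apply Complex.ext
    · simp
    · simp [← h0.2]
  -- columns
  have hcol : ∀ j, star U *ᵥ (fun i => U i j) = Pi.single j 1 := by
    intro j
    have h1 : (fun i => U i j) = U *ᵥ (Pi.single j 1) := by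
      ext i
      simp
    rw [h1, Matrix.mulVec_mulVec, hU1, Matrix.one_mulVec]
  have hqcol : ∀ (N : Matrix ι ι ℂ) (j : ι), star (Pi.single j (1 : ℂ)) ⬝ᵥ
      (N *ᵥ (Pi.single j (1 : ℂ))) = N j j := by
    intro N j
    simp [dotProduct, Matrix.mulVec_single, Pi.single_apply]
  have hcoln : ∀ j, ∑ i, ‖U i j‖ ^ 2 = 1 := by
    intro j
    have h1 := SPL_normU U hU2 (fun i => U i j)
    rw [hcol j] at h1
    rw [← h1]
    rw [Finset.sum_eq_single j]
    · simp
    · intro i _ hij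
      simp [hij]
    · intro h
      exact absurd (Finset.mem_univ j) h
  have haj : ∀ j, (D' j j).re ≤ lam / 4 := by
    intro j
    have h1 := hDq (fun i => U i j)
    rw [SPL_q, hback D, ← hD'def, SPL_qU, hcol j, hqcol, hcoln j, mul_one] at h1
    exact h1
  set y : ℕ → ι → ℂ := fun l => star U *ᵥ v l with hy
  set P : ι → ℝ := fun j => ∑ l ∈ Finset.range L, ‖y l j‖ ^ 2 with hP
  have hPC : ∀ j, P j ≤ C₀ * (w j + (D' j j).re) := by
    intro j
    have h1 := hB (fun i => U i j)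
    rw [SPL_q, hback H, ← hH'def, SPL_qU, hcol j, hqcol, hHD, Matrix.add_apply,
      Matrix.diagonal_apply_eq, Complex.add_re, Complex.ofReal_re] at h1
    refine le_trans (le_of_eq ?_) h1
    refine Finset.sum_congr rfl fun l _ => ?_
    have h2 : ∑ i, (starRingEnd ℂ) (v l i) * U i j = (starRingEnd ℂ) (y l j) := by
      simp only [hy, Matrix.mulVec, dotProduct]
      rw [map_sum]
      refine Finset.sum_congr rfl fun i _ => ?_
      rw [map_mul, Matrix.star_apply, RCLike.star_def, Complex.conj_conj, mul_comm]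
    rw [h2, RCLike.norm_conj]
  have hPsum : ∑ j, P j = L * m := by
    simp only [hP]
    rw [Finset.sum_comm]
    have : ∀ l ∈ Finset.range L, ∑ j, ‖y l j‖ ^ 2 = m := by
      intro l hl
      rw [← hvm l hl]
      exact SPL_normU U hU2 (v l)
    rw [Finset.sum_congr rfl this, Finset.sum_const, Finset.card_range, nsmul_eq_mul]
  have hPw : 3 / 4 * (L * lam * m) ≤ ∑ j, w j * P j := by
    have h1 : ∑ j, w j * P j = ∑ l ∈ Finset.range L, ∑ j, w j * ‖y l j‖ ^ 2 := by
      simp only [hP, Finset.mul_sum]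
      rw [Finset.sum_comm]
    have h2 : ∀ l ∈ Finset.range L, 3 / 4 * (lam * m) ≤ ∑ j, w j * ‖y l j‖ ^ 2 := by
      intro l hl
      have h3 : ((∑ j, w j * ‖y l j‖ ^ 2 : ℝ) : ℂ) = star (v l) ⬝ᵥ ((H - D) *ᵥ v l) := by
        rw [hOU, SPL_qU]
        simp only [dotProduct, Pi.star_apply, RCLike.star_def, Matrix.mulVec_diagonal]
        push_cast
        refine Finset.sum_congr rfl fun j _ => ?_
        have h4 := Complex.conj_mul' (y l j)
        simp only [hy] at h4 ⊢
        rw [← h4]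
        ring
      have h5 := hvH l hl
      rw [SPL_q] at h5
      have h6 := hDq (v l)
      rw [SPL_q, hvm l hl] at h6
      have h7 : star (v l) ⬝ᵥ ((H - D) *ᵥ v l) = star (v l) ⬝ᵥ (H *ᵥ v l) -
          star (v l) ⬝ᵥ (D *ᵥ v l) := by
        rw [Matrix.sub_mulVec, dotProduct_sub]
      have h8 : ∑ j, w j * ‖y l j‖ ^ 2 = (star (v l) ⬝ᵥ (H *ᵥ v l)).re -
          (star (v l) ⬝ᵥ (D *ᵥ v l)).re := by
        rw [← Complex.sub_re, ← h7, ← h3, Complex.ofReal_re]
      rw [h8]
      linarith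
    rw [h1]
    calc 3 / 4 * (L * lam * m) = ∑ l ∈ Finset.range L, 3 / 4 * (lam * m) := by
          rw [Finset.sum_const, Finset.card_range, nsmul_eq_mul]
          ring
      _ ≤ _ := Finset.sum_le_sum h2
  have hOOO : ((H - D) * (H - D) * (H - D)).trace.re = ∑ j, w j ^ 3 := by
    have h1 : ((H - D) * (H - D) * (H - D)).trace = ((∑ j, w j ^ 3 : ℝ) : ℂ) := by
      rw [hOU, hmul, hmul, SPL_tr U _ hU1, Matrix.diagonal_mul_diagonal,
        Matrix.diagonal_mul_diagonal, Matrix.trace_diagonal]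
      push_cast
      refine Finset.sum_congr rfl fun i _ => ?_
      ring
    rw [h1, Complex.ofReal_re]
  have hOOD : ((H - D) * (H - D) * D).trace.re = ∑ j, w j ^ 2 * (D' j j).re := by
    have h1 : ((H - D) * (H - D) * D).trace = ((∑ j, w j ^ 2 * (D' j j).re : ℝ) : ℂ) := by
      have h2 : (H - D) * (H - D) * D = (U * Matrix.diagonal (fun i => ((w i : ℝ) : ℂ)) * star U) *
          (U * Matrix.diagonal (fun i => ((w i : ℝ) : ℂ)) * star U) * (U * D' * star U) := by
        rw [← hOU, hD'def, ← hback D]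
      rw [h2, hmul, hmul, SPL_tr U _ hU1, Matrix.diagonal_mul_diagonal, Matrix.trace]
      push_cast
      refine Finset.sum_congr rfl fun i _ => ?_
      rw [Matrix.diag_apply, Matrix.diagonal_mul]
      conv_lhs => rw [(hdiag D' hD' i).2]
      ring
    rw [h1, Complex.ofReal_re]
  have hfin : ∀ j, 4 * lam * (w j * P j) - 2 * lam ^ 2 * P j ≤
      12 * C₀ * (w j ^ 3 + w j ^ 2 * (D' j j).re) := by
    intro j
    have h1 : 0 ≤ w j + (D' j j).re := by
      have h2 := (hdiag H' hH' j).1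
      rw [hHD, Matrix.add_apply, Matrix.diagonal_apply_eq, Complex.add_re, Complex.ofReal_re] at h2
      exact h2
    have h3 : 0 ≤ P j := Finset.sum_nonneg fun l _ => by positivity
    exact SPL_real _ _ _ _ _ h3 hC₀ (hdiag D' hD' j).1 (haj j) h1 (hPC j) hlam
  have hsum : ∑ j, (4 * lam * (w j * P j) - 2 * lam ^ 2 * P j) ≤
      ∑ j, 12 * C₀ * (w j ^ 3 + w j ^ 2 * (D' j j).re) := Finset.sum_le_sum fun j _ => hfin j
  rw [Finset.sum_sub_distrib, ← Finset.mul_sum, ← Finset.mul_sum, ← Finset.mul_sum, hPsum,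
    Finset.sum_add_distrib] at hsum
  rw [hOOO, hOOD]
  have h9 : 4 * lam * (3 / 4 * (L * lam * m)) ≤ 4 * lam * ∑ j, w j * P j :=
    mul_le_mul_of_nonneg_left hPw (by positivity)
  nlinarith

end Pool.Agent.LW
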